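import Pool.Agent.P.MP_14bd88_co.Count

namespace Pool.Agent.Results.MP_14bd88_co.LogSquared

open Pool.Agent.P.MP_14bd88_co

/-- For every `n ≥ 2` there is a geometric graph with at most `C n (log n)^2` edges that
contains a crossing-free, rotation-preserving straight-line copy of every `n`-vertex plane
tree. -/
theorem result : ∃ C : ℝ, ∀ n : ℕ, 2 ≤ n →
    ∃ (W : Type) (_ : Fintype W) (G : SimpleGraph W) (P : W → ℂ),
      Function.Injective P ∧
      (∀ u v w, G.Adj u v → P w ∈ segment ℝ (P u) (P v) → w = u ∨ w = v) ∧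
      (G.edgeSet.ncard : ℝ) ≤ C * n * Real.log n ^ 2 ∧
      ∀ (T : SimpleGraph (Fin n)), T.IsTree →
      ∀ rot : Fin n → List (Fin n), (∀ v, (rot v).Nodup) → (∀ v w, w ∈ rot v ↔ T.Adj v w) →
      ∃ φ : Fin n → W, Function.Injective φ ∧
        (∀ u v, T.Adj u v → G.Adj (φ u) (φ v)) ∧
        (∀ a b c d, T.Adj a b → T.Adj c d → s(a, b) ≠ s(c, d) →
          ∀ z ∈ segment ℝ (P (φ a)) (P (φ b)) ∩ segment ℝ (P (φ c)) (P (φ d)),
            ∃ w, (w = a ∨ w = b) ∧ (w = c ∨ w = d) ∧ z = P (φ w)) ∧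
        (∀ v, ∃ θ : Fin (rot v).length → ℝ, StrictMono θ ∧
          (∀ i j, θ j < θ i + 2 * Real.pi) ∧
          ∀ i, ∃ r : ℝ, 0 < r ∧
            P (φ ((rot v).get i)) - P (φ v) = r * Complex.exp (θ i * Complex.I)) := by
  refine ⟨4000000 * 9, fun n hn => ?_⟩
  set L := Nat.log 2 n with hL
  set k := Nat.log 2 (L + 1) + 1 with hk
  have hk1 : L + 1 ≤ 2 ^ k := (Nat.lt_pow_succ_log_self (by norm_num) _).le
  have hk2 : 2 ^ k ≤ 2 * (L + 1) := by
    have := Nat.pow_log_le_self 2 (show L + 1 ≠ 0 by omega)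
    rw [hk, pow_succ]
    omega
  have hL1 : 2 ^ L ≤ n := Nat.pow_log_le_self 2 (by omega)
  refine ⟨HV (n * (grid k).F L) L, inferInstance,
    hG _ _ (grid k).g (fun j => 4 * 2 ^ j * (grid k).F L), (hPts _ _).pt,
    (hPts _ _).P_inj, ?_, ?_, ?_⟩
  · intro u v w huv hw
    by_contra h
    push Not at h
    exact Pts.det_ne huv.ne h.2.symm h.1 (det3_eq_zero hw)
  · refine (host_count hL1 hk1).trans ?_
    have h1 : (2 : ℝ) ^ k ≤ 2 * (L + 1) := by exact_mod_cast hk2
    have h2 : (L : ℝ) * Real.log 2 ≤ Real.log n := by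
      rw [← Real.log_pow]
      exact Real.log_le_log (by positivity) (by exact_mod_cast hL1)
    have h3 : Real.log 2 ≤ Real.log n := Real.log_le_log (by norm_num) (by exact_mod_cast hn)
    have h4 := Real.log_two_gt_d9
    have h5 : (0 : ℝ) ≤ L := by positivity
    have h6 : (L : ℝ) + 1 ≤ 3 * Real.log n := by nlinarith
    have h7 : ((L : ℝ) + 1) * 2 ^ k ≤ 18 * Real.log n ^ 2 := by nlinarith
    have h8 : (0 : ℝ) ≤ n := by positivity
    nlinarith [mul_le_mul_of_nonneg_left h7 h8]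
  · intro T hT rot hnd hrot
    obtain ⟨R, hadj, hord⟩ := exists_RT hT rot hrot
    obtain ⟨φ, h, hφ⟩ := exists_resp R (grid k) (Fintype.card_fin n)
    refine ⟨φ, h.inj, fun u v huv => hφ u v ((hadj u v).1 huv), ?_, fun v => ?_⟩
    · rintro a b c d hab hcd hne z ⟨h1, h2⟩
      have h1' := h1
      have h2' := h2
      rw [segment_symm] at h1' h2'
      by_cases hac : a = c
      · subst hac
        have hbd : b ≠ d := fun e => hne (by rw [e])
        exact ⟨a, Or.inl rfl, Or.inl rfl, seg_share (Pts.det_ne (h.inj.ne hab.ne)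
          (h.inj.ne hbd) (h.inj.ne hcd.ne.symm)) h1 h2⟩
      by_cases had : a = d
      · subst had
        have hbc : b ≠ c := fun e => hne (by rw [e, Sym2.eq_swap])
        exact ⟨a, Or.inl rfl, Or.inr rfl, seg_share (Pts.det_ne (h.inj.ne hab.ne)
          (h.inj.ne hbc) (h.inj.ne hcd.ne)) h1 h2'⟩
      by_cases hbc : b = c
      · subst hbc
        exact ⟨b, Or.inr rfl, Or.inl rfl, seg_share (Pts.det_ne (h.inj.ne hab.ne.symm)
          (h.inj.ne had) (h.inj.ne hcd.ne.symm)) h1' h2⟩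
      by_cases hbd : b = d
      · subst hbd
        exact ⟨b, Or.inr rfl, Or.inr rfl, seg_share (Pts.det_ne (h.inj.ne hab.ne.symm)
          (h.inj.ne hac) (h.inj.ne hcd.ne)) h1' h2'⟩
      exact (h.disj ((hadj _ _).1 hab) ((hadj _ _).1 hcd) hac had hbc hbd h1 h2).elim
    · have hne : ∀ i, (rot v).get i ≠ v := fun i =>
        ((hrot _ _).1 (List.get_mem _ i)).ne.symm
      refine exists_angles _ (fun i => (hPts _ _).pt (φ ((rot v).get i)))
        (fun i => ((hPts _ _).P_inj.comp h.inj).ne (hne i)) (fun i j hij => ?_)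
        (fun i j l hij hjl => h.ccw_rot (hnd v) (fun c => (hrot v c).trans (hadj v c))
          (hord v) i j l hij hjl)
      exact Pts.det_ne (h.inj.ne (hne i).symm)
        (h.inj.ne (fun e => hij ((hnd v).get_inj_iff.1 e))) (h.inj.ne (hne j))

end Pool.Agent.Results.MP_14bd88_co.LogSquared
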